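import Pool.Agent.Lib.MP_d55432_al.G2.Iface

/-!
# EXW1: the values of the inner derivations `DD x y`
-/

set_option autoImplicit false

namespace Pool.Agent.Lib.MP_d55432_al.G2.H64

open Matrix LieAlgebra

attribute [local instance 100] LieRing.ofAssociativeRing

section ring

variable {A : Type*} [CommRing A]

theorem bb_add_left (x y z : V7 A) : bb (x + y) z = bb x z + bb y z := by
  simp only [bb, Pi.add_apply]; ring

theorem bb_smul_left (c : A) (x z : V7 A) : bb (c • x) z = c * bb x z := by
  simp only [bb, Pi.smul_apply, smul_eq_mul]; ring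

theorem bb_add_right (x y z : V7 A) : bb x (y + z) = bb x y + bb x z := by
  simp only [bb, Pi.add_apply]; ring

theorem bb_smul_right (c : A) (x z : V7 A) : bb x (c • z) = c * bb x z := by
  simp only [bb, Pi.smul_apply, smul_eq_mul]; ring

theorem qq_smul (c : A) (x : V7 A) : qq (c • x) = c ^ 2 * qq x := by
  simp only [qq, Pi.smul_apply, smul_eq_mul]; ring

theorem qq_add (x y : V7 A) : qq (x + y) = qq x + bb x y + qq y := by
  simp only [qq, bb, Pi.add_apply]; ring

/-- linearised double commutator -/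
theorem brL (x y z : V7 A) : br x (br y z) + br y (br x z) =
    (4 * bb x y) • z - (2 * bb x z) • y - (2 * bb y z) • x := by
  funext i
  fin_cases i <;> simp [br, bb] <;> ring

theorem bb_br (x y z : V7 A) : bb (br x y) z = -bb y (br x z) := by
  simp [br, bb]; ring

theorem bb_br_self (x z : V7 A) : bb x (br x z) = 0 := by
  simp [br, bb]; ring

theorem qq_br (x y : V7 A) : qq (br x y) = bb x y ^ 2 - 4 * qq x * qq y := by
  simp [br, bb, qq]; ring

theorem DD_mulVec (x y z : V7 A) :
    DD x y *ᵥ z = br x (br y z) - br y (br x z) + br (br x y) z := by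
  unfold DD
  rw [add_mulVec, sub_mulVec, ← mulVec_mulVec, ← mulVec_mulVec]
  simp only [adM_mulVec]

theorem ext_mv {P Q : M7 A} (h : ∀ z : V7 A, P *ᵥ z = Q *ᵥ z) : P = Q :=
  Matrix.ext_of_mulVec_single fun _ => h _

theorem adM_add (x y : V7 A) : adM (x + y) = adM x + adM y :=
  ext_mv fun z => by rw [add_mulVec, adM_mulVec, adM_mulVec, adM_mulVec, br_add_left]

theorem adM_smul (c : A) (x : V7 A) : adM (c • x) = c • adM x :=
  ext_mv fun z => by rw [smul_mulVec, adM_mulVec, adM_mulVec, br_smul_left]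

/-- bilinearity and alternation -/
theorem DD_comb (a b c d : A) (x y : V7 A) :
    DD (a • x + b • y) (c • x + d • y) = (a * d - b * c) • DD x y := by
  have h : br (a • x + b • y) (c • x + d • y) = (a * d - b * c) • br x y := by
    rw [br_add_left, br_add_right, br_add_right, br_smul_left, br_smul_left, br_smul_left,
      br_smul_left, br_smul_right, br_smul_right, br_smul_right, br_smul_right, br_self, br_self,
      br_swap x y]
    funext i
    simp only [Pi.add_apply, Pi.smul_apply, Pi.neg_apply, smul_eq_mul, Pi.zero_apply]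
    ring
  unfold DD
  rw [h, adM_add, adM_add, adM_smul, adM_smul, adM_smul, adM_smul, adM_smul]
  simp only [add_mul, mul_add, smul_mul_assoc, mul_smul_comm, smul_smul, smul_add, smul_sub,
    sub_smul]
  module

end ring

section field

variable {K : Type*} [Field K]

theorem DD_self (x : V7 K) : DD x x = 0 := by
  have h := DD_comb (1 : K) 0 1 0 x x
  simpa using h

/-- the square of a degenerate inner derivation -/
theorem sq_deg [CharZero K] (hD : DER_S K) {w y : V7 K} (hw : qq w = 0) (hwy : bb w y = 0)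
    (z : V7 K) : DD w y *ᵥ (DD w y *ᵥ z) =
      -(2 * bb (br w y) z) • br w y - (24 * qq y * bb w z) • w := by
  obtain ⟨hmem, -, -, -, hskew, -⟩ := hD
  obtain ⟨b, hb⟩ : ∃ b, b = br w y := ⟨_, rfl⟩
  rw [← hb]
  have hyw : br y w = -b := by rw [hb, br_swap w y]
  have hby' : bb y w = 0 := by rw [bb_comm]; exact hwy
  have hww : bb w w = 0 := by rw [bb_self, hw, mul_zero]
  have hwb : br w b = 0 := by
    rw [hb, br_br, hw, hwy]; simp
  have hbw : br b w = 0 := by rw [br_swap w b, hwb, neg_zero]
  have hqb : qq b = 0 := by rw [hb, qq_br, hwy, hw]; ring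
  have hbbw : bb b w = 0 := by
    rw [hb, bb_br, br_self]
    simp [bb]
  have hbwb : bb w b = 0 := by rw [bb_comm]; exact hbbw
  have hbby : bb b y = 0 := by
    have := bb_br_self y w
    rw [hyw, ← neg_one_smul K b, bb_smul_right] at this
    rw [bb_comm]
    linear_combination -this
  have hbyb : bb y b = 0 := by rw [bb_comm]; exact hbby
  have hyb : br y b = -((4 * qq y) • w) := by
    have h1 : br y (br y w) = (4 * qq y) • w - (2 * bb y w) • y := br_br y w
    rw [hyw, hby'] at h1
    have h2 : br y (-b) = -br y b := by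
      rw [← neg_one_smul K b, br_smul_right, neg_one_smul]
    rw [h2] at h1
    rw [neg_eq_iff_eq_neg] at h1
    rw [h1]
    module
  have hby : br b y = (4 * qq y) • w := by rw [br_swap y b, hyb, neg_neg]
  obtain ⟨X, hX⟩ : ∃ X, X = DD w y := ⟨_, rfl⟩
  have hXz : ∀ z, X *ᵥ z = br w (br y z) - br y (br w z) + br b z := fun z => by
    rw [hX, DD_mulVec, hb]
  have hXder : ∀ u v, X *ᵥ br u v = br (X *ᵥ u) v + br u (X *ᵥ v) := by
    have := hmem w y
    rw [← hX] at this
    exact (mem_g2 X).1 this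
  have hXskew : ∀ u v, bb (X *ᵥ u) v + bb u (X *ᵥ v) = 0 := by
    have := hmem w y
    rw [← hX] at this
    exact hskew X this
  have neg_r : ∀ u v : V7 K, br u (-v) = -br u v := fun u v => by
    rw [← neg_one_smul K v, br_smul_right, neg_one_smul]
  have neg_l : ∀ u v : V7 K, br (-u) v = -br u v := fun u v => by
    rw [← neg_one_smul K u, br_smul_left, neg_one_smul]
  have sub_r : ∀ u v v' : V7 K, br u (v - v') = br u v - br u v' := fun u v v' => by
    rw [sub_eq_add_neg, br_add_right, neg_r, ← sub_eq_add_neg]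
  have hXw : X *ᵥ w = 0 := by
    rw [hXz, hyw, neg_r, hwb, br_self, hbw]
    have : br y (0 : V7 K) = 0 := by simpa using br_smul_right (0 : K) y y
    rw [this]; simp
  have hXy : X *ᵥ y = (8 * qq y) • w := by
    rw [hXz, br_self, ← hb, hyb, hby]
    have : br w (0 : V7 K) = 0 := by simpa using br_smul_right (0 : K) w w
    rw [this]
    module
  have zero_l : ∀ u : V7 K, br 0 u = 0 := fun u => by simpa using br_smul_left (0 : K) u u
  have hXb : X *ᵥ b = 0 := by
    rw [hb, hXder, hXw, zero_l, hXy, br_smul_right, br_self]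
    simp
  -- bilinear form values
  have b1 : ∀ z, bb w (br y z) = bb b z := fun z => by
    have := bb_br w y z
    rw [← hb] at this
    have h2 := bb_br y w z
    rw [hyw] at h2
    have h3 : bb (-b) z = -bb b z := by rw [← neg_one_smul K b, bb_smul_left]; ring
    rw [h3] at h2
    linear_combination h2
  have b2 : ∀ z, bb y (br w z) = -bb b z := fun z => by
    have := bb_br w y z
    rw [← hb] at this
    linear_combination this
  have b3 : ∀ z, bb w (br w z) = 0 := fun z => bb_br_self w z
  have b4 : ∀ z, bb b (br y z) = 4 * qq y * bb w z := fun z => by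
    have h2 := bb_br y b z
    rw [hyb] at h2
    have h3 : bb (-((4 * qq y) • w)) z = -(4 * qq y * bb w z) := by
      rw [← neg_one_smul K, bb_smul_left, bb_smul_left]; ring
    rw [h3] at h2
    linear_combination h2
  have b5 : ∀ z, bb b (br w z) = 0 := fun z => by
    have h2 := bb_br w b z
    rw [hwb] at h2
    have h3 : bb (0 : V7 K) z = 0 := by simp [bb]
    rw [h3] at h2
    linear_combination h2
  have tt : ∀ z, br w (br w z) = -((2 * bb w z) • w) := fun z => by
    rw [br_br, hw]; module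
  have bbz : ∀ z, br b (br b z) = -((2 * bb b z) • b) := fun z => by
    rw [br_br, hqb]; module
  -- `T S T`
  have hTST : ∀ z, br w (br y (br w z)) = -((2 * bb w z) • b) + (2 * bb b z) • w := fun z => by
    have h1 := brL w y (br w z)
    rw [hwy, b3, b2, tt, neg_r, br_smul_right, hyw] at h1
    have h2 : br w (br y (br w z)) = ((4 * (0 : K)) • br w z - (2 * (0 : K)) • y -
        (2 * -bb b z) • w) - -((2 * bb w z) • -b) := by rw [← h1]; abel
    rw [h2]
    module
  -- commutators of `T` and `B`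
  have hsum : ∀ z, br w (br b z) + br b (br w z) = -((2 * bb w z) • b) - (2 * bb b z) • w :=
    fun z => by
      rw [brL w b z, hbwb]
      module
  have hdif : ∀ z, br w (br b z) - br b (br w z) = (6 * bb b z) • w - (6 * bb w z) • b :=
    fun z => by
      have h1 := hXder w z
      rw [hXw, zero_l, zero_add, hXz (br w z), hXz z] at h1
      rw [br_add_right, sub_r, tt (br y z), hTST, b1, tt z, neg_r, br_smul_right, hyw] at h1
      have h2 : br w (br b z) - br b (br w z) =
          (br w (br b z) + (-((2 * bb b z) • w) - (-((2 * bb w z) • b) + (2 * bb b z) • w))) -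
          br b (br w z) + ((2 * bb b z) • w + (-((2 * bb w z) • b) + (2 * bb b z) • w)) := by
        abel
      rw [h2, add_comm (br w (br b z)), ← h1]
      module
  have hTB : ∀ z, br w (br b z) = (2 * bb b z) • w - (4 * bb w z) • b := fun z => by
    have h1 : (2 : K) • br w (br b z) = (br w (br b z) + br b (br w z)) +
        (br w (br b z) - br b (br w z)) := by module
    rw [hsum, hdif] at h1
    have h2 : br w (br b z) = (1 / 2 : K) • ((2 : K) • br w (br b z)) := by
      rw [smul_smul]; norm_num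
    rw [h2, h1]
    module
  have hBT : ∀ z, br b (br w z) = -((4 * bb b z) • w) + (2 * bb w z) • b := fun z => by
    have h1 : br b (br w z) = (br w (br b z) + br b (br w z)) - br w (br b z) := by abel
    rw [h1, hsum, hTB]
    module
  -- `T X` and `B X`
  have hTX : ∀ z, br w (X *ᵥ z) = -((2 * bb b z) • w) - (2 * bb w z) • b := fun z => by
    rw [hXz, br_add_right, sub_r, tt, b1, hTST, hTB]
    module
  have hBX : ∀ z, br b (X *ᵥ z) = -((24 * qq y * bb w z) • w) + (2 * bb b z) • b := fun z => by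
    have h1 := brL b y (br w z)
    rw [hbby, b5, b2, hBT, br_add_right, neg_r, br_smul_right, br_smul_right, hyw, hyb] at h1
    have h2 : br b (br y (br w z)) = ((4 * (0 : K)) • br w z - (2 * (0 : K)) • y -
        (2 * -bb b z) • b) - (-((4 * bb b z) • -b) + (2 * bb w z) • -((4 * qq y) • w)) := by
      rw [← h1]; abel
    rw [hXz, br_add_right, sub_r, hBT, h2, bbz, b4, b1]
    module
  rw [← hX]
  have h3 := brL w y (X *ᵥ z)
  have h4 : bb w (X *ᵥ z) = 0 := by
    have := hXskew w z
    rw [hXw] at this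
    have h0 : bb (0 : V7 K) z = 0 := by simp [bb]
    rw [h0, zero_add] at this
    exact this
  have h5 : bb y (X *ᵥ z) = -(8 * qq y * bb w z) := by
    have := hXskew y z
    rw [hXy, bb_smul_left] at this
    linear_combination this
  rw [hwy, h4, h5] at h3
  have h6 : br w (br y (X *ᵥ z)) = ((4 * (0 : K)) • (X *ᵥ z) - (2 * (0 : K)) • y -
      (2 * -(8 * qq y * bb w z)) • w) - br y (br w (X *ᵥ z)) := by rw [← h3]; abel
  rw [hXz (X *ᵥ z), h6, hTX, hBX, sub_r, neg_r, br_smul_right, br_smul_right, hyw, hyb]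
  module

/-- the cube of a degenerate inner derivation -/
theorem cube_deg [CharZero K] (hD : DER_S K) {w y : V7 K} (hw : qq w = 0) (hwy : bb w y = 0) :
    DD w y ^ 3 = 0 := by
  obtain ⟨b, hb⟩ : ∃ b, b = br w y := ⟨_, rfl⟩
  have h0 := sq_deg hD hw hwy
  have hbb0 : ∀ u : V7 K, bb u 0 = 0 := fun u => by simp [bb]
  have hz : ∀ z, DD w y *ᵥ (DD w y *ᵥ (DD w y *ᵥ z)) = 0 := fun z => by
    obtain ⟨-, -, -, -, hskew, -⟩ := id hD
    rw [h0]
    -- `w` and `b` are killed
    have hyw : br y w = -b := by rw [hb, br_swap w y]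
    have hwb : br w b = 0 := by rw [hb, br_br, hw, hwy]; simp
    have hbw : br b w = 0 := by rw [br_swap w b, hwb, neg_zero]
    have zero_r : ∀ u : V7 K, br u 0 = 0 := fun u => by simpa using br_smul_right (0 : K) u u
    have neg_r : ∀ u v : V7 K, br u (-v) = -br u v := fun u v => by
      rw [← neg_one_smul K v, br_smul_right, neg_one_smul]
    have hXw : DD w y *ᵥ w = 0 := by
      rw [DD_mulVec, ← hb, hyw, neg_r, hwb, br_self, hbw, zero_r]; simp
    have e1 : bb w (DD w y *ᵥ z) = 0 := by
      have := hskew _ (hD.1 w y) w z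
      rw [hXw] at this
      have h1 : bb (0 : V7 K) z = 0 := by simp [bb]
      rw [h1, zero_add] at this
      exact this
    have hyy : DD w y *ᵥ y = (8 * qq y) • w := by
      have hyb : br y b = -((4 * qq y) • w) := by
        have h1 : br y (br y w) = (4 * qq y) • w - (2 * bb y w) • y := br_br y w
        rw [hyw, bb_comm, hwy, neg_r, neg_eq_iff_eq_neg] at h1
        rw [h1]
        module
      rw [DD_mulVec, br_self, ← hb, hyb, zero_r, br_swap y b, hyb]
      module
    have hXb : DD w y *ᵥ b = 0 := by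
      have := (mem_g2 _).1 (hD.1 w y) w y
      rw [← hb, hXw, hyy, br_smul_right, br_self] at this
      have zero_l : br (0 : V7 K) y = 0 := by simpa using br_smul_left (0 : K) y y
      rw [this, zero_l]
      simp
    have e2 : bb b (DD w y *ᵥ z) = 0 := by
      have := hskew _ (hD.1 w y) b z
      rw [hXb] at this
      have h1 : bb (0 : V7 K) z = 0 := by simp [bb]
      rw [h1, zero_add] at this
      exact this
    rw [← hb, e1, e2]
    simp
  have h3 : DD w y ^ 3 = DD w y * (DD w y * DD w y) := by rw [pow_succ, pow_two, mul_assoc]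
  rw [h3]
  apply Matrix.ext_of_mulVec_single
  intro i
  rw [← mulVec_mulVec, ← mulVec_mulVec, hz, zero_mulVec]

/-- a hyperbolic pair -/
theorem hyp_pair [CharZero K] [IsAlgClosed K] (x y : V7 K)
    (hd : bb x y ^ 2 - 4 * qq x * qq y ≠ 0) : ∃ (w w' : V7 K) (c : K), c ≠ 0 ∧ qq w = 0 ∧
      qq w' = 0 ∧ bb w w' = 1 ∧ DD w w' = c • DD x y := by
  have key : ∀ a b c d : K, a * d - b * c ≠ 0 → qq (a • x + b • y) = 0 →
      qq (c • x + d • y) = 0 → bb (a • x + b • y) (c • x + d • y) ≠ 0 →
      ∃ (w w' : V7 K) (c : K), c ≠ 0 ∧ qq w = 0 ∧ qq w' = 0 ∧ bb w w' = 1 ∧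
        DD w w' = c • DD x y := by
    intro a b c d hdet h1 h2 h3
    obtain ⟨k, hk⟩ : ∃ k, k = bb (a • x + b • y) (c • x + d • y) := ⟨_, rfl⟩
    rw [← hk] at h3
    refine ⟨a • x + b • y, k⁻¹ • (c • x + d • y), k⁻¹ * (a * d - b * c),
      mul_ne_zero (inv_ne_zero h3) hdet, h1, ?_, ?_, ?_⟩
    · rw [qq_smul, h2, mul_zero]
    · rw [bb_smul_right, ← hk, inv_mul_cancel₀ h3]
    · rw [smul_add, smul_smul, smul_smul, DD_comb]
      congr 1
      ring
  have q1 : ∀ a b : K, qq (a • x + b • y) = a ^ 2 * qq x + a * b * bb x y + b ^ 2 * qq y := by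
    intro a b
    rw [qq_add, qq_smul, qq_smul, bb_smul_left, bb_smul_right]; ring
  have q2 : ∀ a b c d : K, bb (a • x + b • y) (c • x + d • y) =
      2 * a * c * qq x + (a * d + b * c) * bb x y + 2 * b * d * qq y := by
    intro a b c d
    simp only [bb_add_left, bb_add_right, bb_smul_left, bb_smul_right, bb_self, bb_comm y x]
    ring
  by_cases hx : qq x = 0
  · have hb : bb x y ≠ 0 := by
      intro h
      apply hd
      rw [h, hx]
      ring
    refine key 1 0 (-(qq y / bb x y)) 1 (by norm_num) ?_ ?_ ?_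
    · rw [q1, hx]; ring
    · rw [q1, hx]
      field_simp
      ring
    · rw [q2, hx]
      have : 2 * 1 * -(qq y / bb x y) * 0 + (1 * 1 + 0 * -(qq y / bb x y)) * bb x y +
          2 * 0 * 1 * qq y = bb x y := by ring
      rw [this]
      exact hb
  · obtain ⟨r, hr⟩ := IsAlgClosed.exists_pow_nat_eq (bb x y ^ 2 - 4 * qq x * qq y)
      (n := 2) (by norm_num)
    have hr0 : r ≠ 0 := by
      rintro rfl
      apply hd
      rw [← hr]
      ring
    refine key ((-bb x y + r) / (2 * qq x)) 1 ((-bb x y - r) / (2 * qq x)) 1 ?_ ?_ ?_ ?_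
    · have : (-bb x y + r) / (2 * qq x) * 1 - 1 * ((-bb x y - r) / (2 * qq x)) = r / qq x := by
        field_simp
        ring
      rw [this]
      exact div_ne_zero hr0 hx
    · rw [q1]
      field_simp
      linear_combination hr
    · rw [q1]
      field_simp
      linear_combination hr
    · rw [q2]
      have : 2 * ((-bb x y + r) / (2 * qq x)) * ((-bb x y - r) / (2 * qq x)) * qq x +
          ((-bb x y + r) / (2 * qq x) * 1 + 1 * ((-bb x y - r) / (2 * qq x))) * bb x y +
          2 * 1 * 1 * qq y = -(r ^ 2) / qq x := by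
        rw [hr]
        field_simp
        linear_combination (-1 : K) * hr
      rw [this]
      exact div_ne_zero (neg_ne_zero.2 (pow_ne_zero 2 hr0)) hx

/-- degenerate planes -/
theorem deg_plane [CharZero K] (x y : V7 K) (hd : bb x y ^ 2 - 4 * qq x * qq y = 0) :
    ∃ (w z : V7 K) (c : K), qq w = 0 ∧ bb w z = 0 ∧ DD x y = c • DD w z := by
  by_cases hx : qq x = 0
  · refine ⟨x, y, 1, hx, ?_, (one_smul K _).symm⟩
    rw [hx] at hd
    have : bb x y ^ 2 = 0 := by linear_combination hd
    exact pow_eq_zero_iff (n := 2) (by norm_num) |>.1 this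
  · refine ⟨(-bb x y / (2 * qq x)) • x + (1 : K) • y, (1 : K) • x + (0 : K) • y, -1, ?_, ?_, ?_⟩
    · rw [qq_add, qq_smul, qq_smul, bb_smul_left, bb_smul_right]
      field_simp
      linear_combination (-1 : K) * hd
    · simp only [bb_add_left, bb_add_right, bb_smul_left, bb_smul_right, bb_self, bb_comm y x]
      field_simp
      ring
    · rw [DD_comb, smul_smul]
      have : (-1 : K) * (-bb x y / (2 * qq x) * 0 - 1 * 1) = 1 := by ring
      rw [this, one_smul]

theorem Cj.trans' {X Y Z : M7 K} (h : Cj X Y) (h' : Cj Y Z) : Cj X Z := by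
  obtain ⟨g, k, H, rfl⟩ := h
  obtain ⟨g', k', H', rfl⟩ := h'
  refine ⟨g' * g, k * k', H'.mul H, ?_⟩
  simp only [Matrix.mul_assoc]

theorem Cj.smul' {X Y : M7 K} (c : K) (h : Cj X Y) : Cj (c • X) (c • Y) := by
  obtain ⟨g, k, H, rfl⟩ := h
  refine ⟨g, k, H, ?_⟩
  rw [Matrix.mul_smul, Matrix.smul_mul]

theorem smul_TT (c l m : K) : c • TT l m = TT (c * l) (c * m) := by
  ext i j
  fin_cases i <;> fin_cases j <;> simp [TT] <;> ring

theorem DD14 : DD (ee 1 : V7 K) (ee 4) = TT 4 (-2) := by
  refine ext_mv fun z => ?_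
  rw [DD_mulVec]
  funext i
  rw [TT, mulVec_diagonal]
  fin_cases i <;> simp [br, ee] <;> ring

/-- the orthogonal complement of a nondegenerate three dimensional space contains a vector of
norm one -/
theorem compl_vec [CharZero K] [IsAlgClosed K] {e w w' : V7 K} (he : qq e = 1) (hw : qq w = 0)
    (hw' : qq w' = 0) (hww : bb w w' = 1) (hew : bb e w = 0) (hew' : bb e w' = 0) :
    ∃ z : V7 K, bb e z = 0 ∧ bb w z = 0 ∧ bb w' z = 0 ∧ qq z = 1 := by
  have hee : bb e e = 2 := by rw [bb_self, he]; norm_num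
  have hw0 : bb w w = 0 := by rw [bb_self, hw, mul_zero]
  have hw0' : bb w' w' = 0 := by rw [bb_self, hw', mul_zero]
  -- a nonzero vector in the complement
  obtain ⟨u, hu0, hue, huw, huw'⟩ : ∃ u : V7 K, u ≠ 0 ∧ bb e u = 0 ∧ bb w u = 0 ∧ bb w' u = 0 := by
    let F : V7 K →ₗ[K] (Fin 3 → K) :=
      { toFun := fun u => ![bb e u, bb w u, bb w' u]
        map_add' := fun u v => by
          funext i; fin_cases i <;> simp [bb_add_right]
        map_smul' := fun c u => by
          funext i; fin_cases i <;> simp [bb_smul_right] }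
    have hk : LinearMap.ker F ≠ ⊥ := LinearMap.ker_ne_bot_of_finrank_lt (by simp)
    obtain ⟨u, hu, hu0⟩ := Submodule.exists_mem_ne_zero_of_ne_bot hk
    rw [LinearMap.mem_ker] at hu
    exact ⟨u, hu0, congrFun hu 0, congrFun hu 1, congrFun hu 2⟩
  obtain ⟨s, hs0, hse, hsw, hsw'⟩ :
      ∃ s : V7 K, qq s ≠ 0 ∧ bb e s = 0 ∧ bb w s = 0 ∧ bb w' s = 0 := by
    by_cases hqu : qq u = 0
    · obtain ⟨v, hv⟩ : ∃ v : V7 K, bb u v ≠ 0 := by
        by_contra hcon
        push Not at hcon
        apply hu0
        have h0 := hcon (ee 0)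
        have h1 := hcon (ee 1)
        have h2 := hcon (ee 2)
        have h3 := hcon (ee 3)
        have h4 := hcon (ee 4)
        have h5 := hcon (ee 5)
        have h6 := hcon (ee 6)
        simp [bb, ee] at h0 h1 h2 h3 h4 h5 h6
        funext i
        fin_cases i <;> simp [h0, h1, h2, h3, h4, h5, h6]
      obtain ⟨z, hz⟩ : ∃ z, z = v + (-(bb e v / 2)) • e + (-(bb w' v)) • w + (-(bb w v)) • w' :=
        ⟨_, rfl⟩
      have hze : bb e z = 0 := by
        rw [hz]
        simp only [bb_add_right, bb_smul_right, hee, hew, hew']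
        ring
      have hzw : bb w z = 0 := by
        rw [hz]
        simp only [bb_add_right, bb_smul_right, hw0, hww, bb_comm w e, hew]
        ring
      have hzw' : bb w' z = 0 := by
        rw [hz]
        simp only [bb_add_right, bb_smul_right, hw0', bb_comm w' w, hww, bb_comm w' e, hew']
        ring
      have huz : bb u z ≠ 0 := by
        rw [hz]
        simp only [bb_add_right, bb_smul_right, bb_comm u e, bb_comm u w, bb_comm u w', hue, huw,
          huw', mul_zero, add_zero]
        exact hv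
      by_cases hqz : qq z = 0
      · refine ⟨u + z, ?_, ?_, ?_, ?_⟩
        · rw [qq_add, hqu, hqz, zero_add, add_zero]
          exact huz
        · rw [bb_add_right, hue, hze, add_zero]
        · rw [bb_add_right, huw, hzw, add_zero]
        · rw [bb_add_right, huw', hzw', add_zero]
      · exact ⟨z, hqz, hze, hzw, hzw'⟩
    · exact ⟨u, hqu, hue, huw, huw'⟩
  obtain ⟨r, hr⟩ := IsAlgClosed.exists_pow_nat_eq (qq s) (n := 2) (by norm_num)
  have hr0 : r ≠ 0 := by
    rintro rfl
    apply hs0
    rw [← hr]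
    ring
  refine ⟨r⁻¹ • s, ?_, ?_, ?_, ?_⟩
  · rw [bb_smul_right, hse, mul_zero]
  · rw [bb_smul_right, hsw, mul_zero]
  · rw [bb_smul_right, hsw', mul_zero]
  · rw [qq_smul, ← hr, inv_pow, inv_mul_cancel₀ (pow_ne_zero 2 hr0)]

/-- hyperbolic inner derivations are conjugate to `TT 4 (-2)` -/
theorem hyp_conj [CharZero K] [IsAlgClosed K] (hD : DER_S K) (hF : FRAME_S K) {w w' : V7 K}
    (hw : qq w = 0) (hw' : qq w' = 0) (hww : bb w w' = 1) : Cj (TT 4 (-2)) (DD w w') := by
  obtain ⟨e, he⟩ : ∃ e, e = br w w' := ⟨_, rfl⟩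
  have hqe : qq e = 1 := by rw [he, qq_br, hww, hw]; ring
  have h1 : br e w = (2 : K) • w := by
    rw [br_swap w e, he, br_br, hw, hww]
    module
  have h2 : br e w' = -((2 : K) • w') := by
    have h3 : br w w' = -br w' w := br_swap w' w
    rw [br_swap w' e, he, h3, ← neg_one_smul K (br w' w), br_smul_right, br_br, hw', bb_comm w' w,
      hww]
    module
  have hew : bb e w = 0 := by
    rw [he, bb_br, br_self]; simp [bb]
  have hew' : bb e w' = 0 := by
    have h3 : br w w' = -br w' w := br_swap w' w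
    rw [he, h3, ← neg_one_smul K (br w' w), bb_smul_left, bb_comm, bb_br_self, mul_zero]
  obtain ⟨z, hze, hzw, hzw', hqz⟩ := compl_vec hqe hw hw' hww hew hew'
  have htt : br e (br e z) = (4 : K) • z := by
    rw [br_br, hqe, hze]; module
  have hqt : qq (br e z) = -4 := by rw [qq_br, hze, hqe, hqz]; ring
  have hzt : bb z (br e z) = 0 := by
    rw [br_swap z e, ← neg_one_smul K (br z e), bb_smul_right, bb_br_self, mul_zero]
  have hwt : bb w (br e z) = 0 := by
    have := bb_br e w z
    rw [h1, bb_smul_left, hzw] at this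
    linear_combination this
  have hwt' : bb w' (br e z) = 0 := by
    have := bb_br e w' z
    rw [h2, ← neg_one_smul K, bb_smul_left, bb_smul_left, hzw'] at this
    linear_combination this
  obtain ⟨g, h, H, -, hg1, -, hg4, -⟩ := hF e w ((1 / 4 : K) • ((2 : K) • z + br e z)) w'
    ((1 / 4 : K) • ((2 : K) • z + (-1 : K) • br e z)) hqe h1
    (by rw [br_smul_right, br_add_right, br_smul_right, htt]; module) h2
    (by rw [br_smul_right, br_add_right, br_smul_right, br_smul_right, htt]; module) hww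
    (by rw [bb_smul_right, bb_add_right, bb_smul_right, bb_smul_right, hzw, hwt]; ring)
    (by rw [bb_smul_left, bb_add_left, bb_smul_left, bb_comm z, hzw', bb_comm _ w', hwt']; ring)
    (by
      simp only [bb_smul_left, bb_smul_right, bb_add_left, bb_add_right, bb_self, hqz, hqt, hzt,
        bb_comm (br e z) z]
      norm_num)
  refine ⟨g, h, H, ?_⟩
  rw [← hg1, ← hg4, hD.2.1 g h H, DD14]

/-- the permutation matrix which exchanges `u` and `v` -/
def PM (K : Type*) [Field K] : M7 K := !![
  1, 0, 0, 0, 0, 0, 0;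
  0, 0, 0, 0, 1, 0, 0;
  0, 0, 0, 0, 0, 1, 0;
  0, 0, 0, 0, 0, 0, 1;
  0, 1, 0, 0, 0, 0, 0;
  0, 0, 1, 0, 0, 0, 0;
  0, 0, 0, 1, 0, 0, 0]

theorem PM_mulVec (z : V7 K) : PM K *ᵥ z = ![z 0, z 4, z 5, z 6, z 1, z 2, z 3] := by
  funext i
  fin_cases i <;> simp [PM, mulVec, dotProduct, Fin.sum_univ_succ]

theorem PM_det : IsUnit (PM K).det := by
  have h : PM K * PM K = 1 := by
    refine ext_mv fun z => ?_
    rw [← mulVec_mulVec, PM_mulVec, PM_mulVec, one_mulVec]
    funext i
    fin_cases i <;> rfl
  exact (Matrix.isUnit_iff_isUnit_det _).1 (IsUnit.of_mul_eq_one _ h)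

theorem rank_DP (d : Fin 7 → K) (s : Finset (Fin 7)) (hs : ∀ i, i ∈ s ↔ d i ≠ 0) :
    (Matrix.diagonal d * PM K).rank = s.card := by
  classical
  rw [Matrix.rank_mul_eq_left_of_isUnit_det _ _ PM_det, Matrix.rank_diagonal,
    Fintype.card_subtype]
  congr 1
  ext i
  simp [hs]

/-- the square of the special degenerate inner derivations -/
theorem sq_sp [CharZero K] (hD : DER_S K) (y : V7 K) (hy : bb (ee 1) y = 0) (d : Fin 7 → K)
    (h : ∀ z : V7 K, -(2 * bb (br (ee 1) y) z) • br (ee 1) y - (24 * qq y * bb (ee 1) z) • ee 1 =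
      fun i => d i * (![z 0, z 4, z 5, z 6, z 1, z 2, z 3] : V7 K) i) :
    DD (ee 1) y * DD (ee 1) y = Matrix.diagonal d * PM K := by
  refine ext_mv fun z => ?_
  rw [← mulVec_mulVec, ← mulVec_mulVec, sq_deg hD (by simp [qq, ee]) hy, h, PM_mulVec]
  funext i
  rw [mulVec_diagonal]

/-- **EXW1** -/
theorem exw1 (K : Type*) [Field K] [CharZero K] [IsAlgClosed K] (hD : DER_S K) (hF : FRAME_S K)
    (hW : WEYL_S K) : EXW1_S K := by
  refine ⟨fun x y hd => ?_, fun x y hd => ?_, ?_⟩
  · obtain ⟨w, w', c, hc, hw, hw', hww, hDD⟩ := hyp_pair x y hd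
    have h1 := hyp_conj hD hF hw hw' hww
    have h2 : Cj (TT (-2) (-2)) (TT (4 : K) (-2)) := hW _ _ _ _ (by norm_num) (by norm_num)
    have h3 := Cj.smul' c⁻¹ (Cj.trans' h2 h1)
    rw [hDD, smul_smul, inv_mul_cancel₀ hc, one_smul] at h3
    refine ⟨c⁻¹ * -2, mul_ne_zero (inv_ne_zero hc) (by norm_num), ?_⟩
    have h4 : (c⁻¹ * -2) • TT (1 : K) 1 = c⁻¹ • TT (-2) (-2) := by
      rw [smul_TT, smul_TT]
      congr 1 <;> ring
    rw [h4]
    exact h3
  · obtain ⟨w, z, c, hw, hwz, h⟩ := deg_plane x y hd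
    have h3 := cube_deg hD hw hwz
    rw [h, smul_pow, show (5 : ℕ) = 3 + 2 from rfl, pow_add (DD w z), h3, zero_mul, smul_zero]
  · have c7 : ∀ w y : V7 K, qq w = 0 → bb w y = 0 → DD w y ^ 7 = 0 := fun w y hw hwy => by
      change DD w y ^ (3 + 4) = 0
      rw [pow_add, cube_deg hD hw hwy, zero_mul]
    have nz : ∀ (w y z : V7 K) (i : Fin 7), (DD w y *ᵥ z) i ≠ 0 → DD w y ≠ 0 := by
      intro w y z i h h0
      apply h
      rw [h0, zero_mulVec]
      rfl
    rintro r (rfl | rfl | rfl)
    · refine ⟨ee 1, ee 6, nz _ _ (ee 3) 1 ?_, c7 _ _ (by simp [qq, ee]) (by simp [bb, ee]), ?_⟩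
      · rw [DD_mulVec]
        simp [br, ee]
        norm_num
      · rw [sq_sp hD _ (by simp [bb, ee]) (fun _ => 0), rank_DP _ ∅]
        · rfl
        · intro i
          simp
        · intro z
          funext i
          fin_cases i <;> simp [br, bb, qq, ee]
    · refine ⟨ee 1, ee 2, nz _ _ (ee 0) 6 ?_, c7 _ _ (by simp [qq, ee]) (by simp [bb, ee]), ?_⟩
      · rw [DD_mulVec]
        simp [br, ee]
      · rw [sq_sp hD _ (by simp [bb, ee]) ![0, 0, 0, 0, 0, 0, -8], rank_DP _ {6}]
        · rfl
        · intro i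
          fin_cases i <;> simp
        · intro z
          funext i
          fin_cases i <;> simp [br, bb, qq, ee] <;> ring
    · refine ⟨ee 1, ee 2 + ee 5, nz _ _ (ee 0) 6 ?_,
        c7 _ _ (by simp [qq, ee]) (by simp [bb, ee]), ?_⟩
      · rw [DD_mulVec]
        simp [br, ee]
      · rw [sq_sp hD _ (by simp [bb, ee]) ![0, -24, 0, 0, 0, 0, -8], rank_DP _ {1, 6}]
        · rfl
        · intro i
          fin_cases i <;> simp
        · intro z
          funext i
          fin_cases i <;> simp [br, bb, qq, ee] <;> ring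

end field

end Pool.Agent.Lib.MP_d55432_al.G2.H64
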